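import Pool.Agent.W2helper82.OA.Stm

/-!
# Outer boundaries, piece P6: a path of the free region which crosses a half annulus meets the band

The band and the observed vertices give a top-bottom crossing of a rectangle; the path, continued by
two horizontal segments, is a left-right crossing.  They have a common vertex.
-/

set_option autoImplicit false

namespace Pool.Agent.W2helper82.OA.P6

open H974 H12S Finset H984P H984N

/-! ### General facts on paths -/

theorem re_of_inR {A B C D : ℤ} {e : Edg} (h1 : inR A B C D (src e)) (h2 : inR A B C D (tgt e)) :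
    e ∈ RE A B C D := by
  obtain ⟨x, y, _ | _⟩ := e
  · simp only [src_mk, tgt_false, inR] at h1 h2
    simp only [mem_RE_false]
    omega
  · simp only [src_mk, tgt_true, inR] at h1 h2
    simp only [mem_RE_true]
    omega

theorem inR_of_re {A B C D : ℤ} {e : Edg} (h : e ∈ RE A B C D) :
    inR A B C D (src e) ∧ inR A B C D (tgt e) := by
  obtain ⟨x, y, _ | _⟩ := e
  · simp only [mem_RE_false] at h
    simp only [src_mk, tgt_false, inR]
    omega
  · simp only [mem_RE_true] at h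
    simp only [src_mk, tgt_true, inR]
    omega

/-- a path all of whose edges (with both ends on the path) are in `F'` -/
theorem reach_sub {F F' : Set Edg} {u v : Vtx} (h : Reach F u v)
    (hF : ∀ e ∈ F, Reach F u (src e) → Reach F u (tgt e) → e ∈ F') : Reach F' u v := by
  have key : Reach F u v ∧ Reach F' u v := by
    induction h with
    | refl => exact ⟨Reach.refl _ _, Reach.refl _ _⟩
    | @tail w w' _ hs ih =>
      have h1 : Reach F u w' := ih.1.trans hs.reach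
      refine ⟨h1, ih.2.trans ?_⟩
      obtain ⟨e, he, hc⟩ := hs
      refine Adj.reach ⟨e, ?_, hc⟩
      rcases hc with ⟨h2, h3⟩ | ⟨h2, h3⟩
      · exact hF e he (h2 ▸ ih.1) (h3 ▸ h1)
      · exact hF e he (h2 ▸ h1) (h3 ▸ ih.1)
  exact key.2

/-- a property of all ends of the edges of `F` -/
theorem reach_prop {F : Set Edg} {P : Vtx → Prop} {u v : Vtx} (h : Reach F u v) (hu : P u)
    (hF : ∀ e ∈ F, P (src e) ∧ P (tgt e)) : P v := by
  induction h with
  | refl => exact hu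
  | tail _ hs _ =>
    obtain ⟨e, he, hc⟩ := hs
    rcases hc with ⟨_, h3⟩ | ⟨h2, _⟩
    · exact h3 ▸ (hF e he).2
    · exact h2 ▸ (hF e he).1

/-- Horizontal and vertical paths through a common rectangle have a common vertex. -/
theorem meet {F1 F2 : Set Edg} {A B C D a b c d : ℤ} (hA : A ≤ a) (hab : a < b) (hB : b ≤ B)
    (hC : C ≤ c) (hcd : c < d) (hD : d ≤ D) {u v u' v' : Vtx}
    (h1 : Reach (F1 ∩ ↑(RE A B c d)) u v) (hu : u.1 ≤ a) (hv : b ≤ v.1)
    (h2 : Reach (F2 ∩ ↑(RE a b C D)) u' v') (hu' : u'.2 ≤ c) (hv' : d ≤ v'.2) :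
    ∃ m, Reach (F1 ∩ ↑(RE A B c d)) u m ∧ Reach (F2 ∩ ↑(RE a b C D)) u' m := by
  by_contra hcon
  push Not at hcon
  set F : Set Edg := {e | (e ∈ F1 ∩ ↑(RE A B c d) ∧ Reach (F1 ∩ ↑(RE A B c d)) u (src e) ∧
      Reach (F1 ∩ ↑(RE A B c d)) u (tgt e)) ∨ (e ∈ F2 ∩ ↑(RE a b C D) ∧
      Reach (F2 ∩ ↑(RE a b C D)) u' (src e) ∧ Reach (F2 ∩ ↑(RE a b C D)) u' (tgt e))} with hF
  have k1 : Reach (F ∩ ↑(RE A B c d)) u v :=
    reach_sub h1 fun e he p q => ⟨Or.inl ⟨he, p, q⟩, he.2⟩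
  have k2 : Reach (F ∩ ↑(RE a b C D)) u' v' :=
    reach_sub h2 fun e he p q => ⟨Or.inr ⟨he, p, q⟩, he.2⟩
  have k3 := cross_meet hA hab hB hC hcd hD k1 hu hv k2 hu' hv'
  have k4 : ∀ w, Reach (F ∩ ↑(RE A B C D)) u w → Reach (F1 ∩ ↑(RE A B c d)) u w := by
    intro w hw
    induction hw with
    | refl => exact Reach.refl _ _
    | @tail w w' _ hs ih =>
      obtain ⟨e, ⟨he, _⟩, hc⟩ := hs
      rcases he with ⟨_, p, q⟩ | ⟨_, p, q⟩
      · rcases hc with ⟨_, h3⟩ | ⟨h2, _⟩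
        · exact h3 ▸ q
        · exact h2 ▸ p
      · exfalso
        rcases hc with ⟨h3, _⟩ | ⟨_, h3⟩
        · exact hcon w ih (h3 ▸ p)
        · exact hcon w ih (h3 ▸ q)
  exact hcon u' (k4 u' k3) (Reach.refl _ _)

/-- first vertex with the property `P` -/
theorem first_hit {A : Set Edg} {P : Vtx → Prop} {u w : Vtx} (h : Reach A u w) (hu : ¬ P u)
    (hw : P w) : ∃ p' p, Reach (A ∩ GrV {v | ¬ P v}) u p' ∧ Adj A p' p ∧ P p ∧ ¬ P p' := by
  have key : ∀ w, Reach A u w →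
      (∃ p' p, Reach (A ∩ GrV {v | ¬ P v}) u p' ∧ Adj A p' p ∧ P p ∧ ¬ P p') ∨
      (Reach (A ∩ GrV {v | ¬ P v}) u w ∧ ¬ P w) := by
    intro w hw
    induction hw with
    | refl => exact Or.inr ⟨Reach.refl _ _, hu⟩
    | @tail w w' _ hs ih =>
      rcases ih with ih | ⟨ih, hnw⟩
      · exact Or.inl ih
      · by_cases hp : P w'
        · exact Or.inl ⟨w, w', ih, hs, hp, hnw⟩
        · refine Or.inr ⟨ih.trans ?_, hp⟩
          obtain ⟨e, he, hc⟩ := hs
          refine Adj.reach ⟨e, ⟨he, ?_⟩, hc⟩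
          rcases hc with ⟨h2, h3⟩ | ⟨h2, h3⟩
          · exact ⟨by simpa [h2] using hnw, by simpa [h3] using hp⟩
          · exact ⟨by simpa [h2] using hp, by simpa [h3] using hnw⟩
  rcases key w h with h1 | ⟨_, h1⟩
  · exact h1
  · exact absurd hw h1

theorem hline {V : Set Vtx} {A B C D k l r : ℤ} (hkl : k ≤ l) (hA : A ≤ k) (hB : l ≤ B)
    (hC : C ≤ r) (hD : r ≤ D) (hV : ∀ j, k ≤ j → j ≤ l → ((j, r) : Vtx) ∈ V) :
    Reach (GrV V ∩ ↑(RE A B C D)) (k, r) (l, r) := by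
  obtain ⟨n, rfl⟩ := Int.le.dest hkl
  clear hkl
  induction n with
  | zero => simpa using Reach.refl _ _
  | succ n ih =>
    have h1 := ih (by push_cast at hB; omega) (fun j h1 h2 => hV j h1 (by push_cast; omega))
    refine h1.trans (Adj.reach ⟨(k + n, r, true), ⟨⟨?_, ?_⟩, ?_⟩, Or.inl ⟨rfl, ?_⟩⟩)
    · exact hV _ (by omega) (by push_cast; omega)
    · rw [tgt_true]
      exact hV _ (by omega) (by push_cast; omega)
    · simp only [Finset.mem_coe, mem_RE_true]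
      push_cast at hB
      omega
    · rw [tgt_true]
      push_cast
      rw [add_assoc]

theorem vline {V : Set Vtx} {A B C D k l r : ℤ} (hkl : k ≤ l) (hA : A ≤ r) (hB : r ≤ B)
    (hC : C ≤ k) (hD : l ≤ D) (hV : ∀ j, k ≤ j → j ≤ l → ((r, j) : Vtx) ∈ V) :
    Reach (GrV V ∩ ↑(RE A B C D)) (r, k) (r, l) := by
  obtain ⟨n, rfl⟩ := Int.le.dest hkl
  clear hkl
  induction n with
  | zero => simpa using Reach.refl _ _
  | succ n ih =>
    have h1 := ih (by push_cast at hD; omega) (fun j h1 h2 => hV j h1 (by push_cast; omega))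
    refine h1.trans (Adj.reach ⟨(r, k + n, false), ⟨⟨?_, ?_⟩, ?_⟩, Or.inl ⟨rfl, ?_⟩⟩)
    · rw [src_mk]
      exact hV _ (by omega) (by push_cast; omega)
    · rw [tgt_false]
      exact hV _ (by omega) (by push_cast; omega)
    · simp only [Finset.mem_coe, mem_RE_false]
      push_cast at hD
      omega
    · rw [tgt_false]
      push_cast
      rw [add_assoc]

/-- Follow a path until it meets `Ob`. -/
theorem walk {S G : Set Edg} {Ob U : Set Vtx} {p q : Vtx} (h : Reach S p q) (hp : p ∉ Ob)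
    (hin : ∀ e ∈ S, src e ∉ Ob → tgt e ∉ Ob → src e ∈ U ∨ tgt e ∈ U → src e ∈ U ∧ tgt e ∈ U)
    (hpU : p ∈ U)
    (hex : ∀ e ∈ S, (src e ∈ Ob → src e ∈ U) ∧ (tgt e ∈ Ob → tgt e ∈ U)) (hG : S ⊆ G) :
    (q ∉ Ob ∧ q ∈ U ∧ Reach (S ∩ GrV Obᶜ) p q ∧ Reach (GrV U ∩ G) p q) ∨
      ∃ r, r ∈ Ob ∧ r ∈ U ∧ Reach (GrV U ∩ G) p r ∧ ∃ e ∈ S, src e = r ∨ tgt e = r := by
  induction h with
  | refl => exact Or.inl ⟨hp, hpU, Reach.refl _ _, Reach.refl _ _⟩
  | @tail w w' _ hs ih =>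
    rcases ih with ⟨i1, i2, i3, i4⟩ | ih
    · obtain ⟨e, he, hc⟩ := hs
      by_cases hw : w' ∈ Ob
      · refine Or.inr ⟨w', hw, ?_⟩
        rcases hc with ⟨h2, h3⟩ | ⟨h2, h3⟩
        · have hU : w' ∈ U := h3 ▸ (hex e he).2 (h3 ▸ hw)
          exact ⟨hU, i4.trans (Adj.reach ⟨e, ⟨⟨h2 ▸ i2, h3 ▸ hU⟩, hG he⟩, Or.inl ⟨h2, h3⟩⟩),
            e, he, Or.inr h3⟩
        · have hU : w' ∈ U := h2 ▸ (hex e he).1 (h2 ▸ hw)
          exact ⟨hU, i4.trans (Adj.reach ⟨e, ⟨⟨h2 ▸ hU, h3 ▸ i2⟩, hG he⟩, Or.inr ⟨h2, h3⟩⟩),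
            e, he, Or.inl h2⟩
      · refine Or.inl ⟨hw, ?_⟩
        rcases hc with ⟨h2, h3⟩ | ⟨h2, h3⟩
        · have hU := hin e he (h2 ▸ i1) (h3 ▸ hw) (Or.inl (h2 ▸ i2))
          refine ⟨h3 ▸ hU.2, i3.trans (Adj.reach ⟨e, ⟨he, h2 ▸ i1, h3 ▸ hw⟩, Or.inl ⟨h2, h3⟩⟩),
            i4.trans (Adj.reach ⟨e, ⟨hU, hG he⟩, Or.inl ⟨h2, h3⟩⟩)⟩
        · have hU := hin e he (h2 ▸ hw) (h3 ▸ i1) (Or.inr (h3 ▸ i2))
          refine ⟨h2 ▸ hU.1, i3.trans (Adj.reach ⟨e, ⟨he, h2 ▸ hw, h3 ▸ i1⟩, Or.inr ⟨h2, h3⟩⟩),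
            i4.trans (Adj.reach ⟨e, ⟨hU, hG he⟩, Or.inr ⟨h2, h3⟩⟩)⟩
    · exact Or.inr ih

theorem sd_le {v z : Vtx} {n : ℤ} : sd v z ≤ n ↔ (-n ≤ v.1 - z.1 ∧ v.1 - z.1 ≤ n) ∧
    (-n ≤ v.2 - z.2 ∧ v.2 - z.2 ≤ n) := by
  unfold sd
  rw [max_le_iff, abs_le, abs_le]

theorem le_sd {v z : Vtx} {n : ℤ} : n ≤ sd v z ↔ (n ≤ v.1 - z.1 ∨ n ≤ z.1 - v.1) ∨
    (n ≤ v.2 - z.2 ∨ n ≤ z.2 - v.2) := by
  unfold sd
  rw [le_max_iff, le_abs, le_abs, neg_sub, neg_sub]

theorem adj_near {A : Set Edg} {p q : Vtx} (h : Adj A p q) :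
    -1 ≤ p.1 - q.1 ∧ p.1 - q.1 ≤ 1 ∧ -1 ≤ p.2 - q.2 ∧ p.2 - q.2 ≤ 1 := by
  obtain ⟨⟨x, y, _ | _⟩, _, ⟨rfl, rfl⟩ | ⟨rfl, rfl⟩⟩ := h <;>
  simp only [src_mk, tgt_false, tgt_true] <;> omega

/-! ### The barrier -/

/-- the vertices of the band joined to `b0`, and observed vertices -/
def UU (x y a s : ℤ) (Ob : Set Vtx) (EW : Set Edg) (b0 : Vtx) : Set Vtx :=
  {v | (Reach EW v b0 ∧ (x + a ≤ v.1 ∨ y + a ≤ v.2 ∨ v.2 ≤ y - a) ∧ (y - a - s ≤ v.2 ∧
      v.2 ≤ y + a + s) ∧ (x - s ≤ v.1 ∧ v.1 ≤ x + a + s)) ∨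
    (v ∈ Ob ∧ (y + a - s ≤ v.2 ∨ v.2 ≤ y - a + s ∨ v.2 < 0) ∧
      (v.1 = x - 1 ∨ v.2 < 0 ∨ (y - a - 2 * s ≤ v.2 ∧ v.2 ≤ y + a + 2 * s)))}

theorem barrier {x y : ℤ} {g s a : ℕ} {Ob : Set Vtx} {H : Finset Edg} {b0 b1 : Vtx}
    (hg : 0 < g) (hgs : 64 * g ≤ s) (hy : 0 ≤ y) (hO : ObOk (x, y) g s Ob)
    (ha : a = 6 * s ∨ a = 16 * s) (hB : Band (x, y) s a H)
    (hb0 : b0.1 = x + 5 * s) (hb1 : b1.1 = x + 18 * s)
    (hk : Reach (↑H ∩ ↑(LRE (x + 5 * s) (x + 18 * s) y (y + 2 * s))) b0 b1)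
    (EW : Set Edg) (hEW : EW = ↑H ∩ GrV Obᶜ ∩ ↑(bandE (x, y) s a ∪ kapE (x, y) s)) :
    ∃ c c' : ℤ, ((c, y - a - 3 * s) : Vtx) ∈ UU x y a s Ob EW b0 ∧
      Reach (GrV (UU x y a s Ob EW b0) ∩
        ↑(RE (x - s) (x + a + 3 * s) (y - a - 3 * s) (y + a + 3 * s)))
        (c, y - a - 3 * s) (c', y + a + 3 * s) := by
  have haZ : (a : ℤ) = 6 * s ∨ (a : ℤ) = 16 * s := by omega
  have hgs' : 64 * (g : ℤ) ≤ s := by exact_mod_cast hgs
  have hg' : 0 < (g : ℤ) := by exact_mod_cast hg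
  -- free vertices
  have fre : ∀ v : Vtx, x + a ≤ v.1 → v.1 ≤ x + a + s → y - a - s ≤ v.2 → v.2 ≤ y + a + s →
      v ∈ Ob → v.2 < 0 := by
    intro v h1 h2 h3 h4 hv
    by_contra h5
    refine hO.fre v ?_ ?_ ?_ (by omega) hv
    · rw [le_sd]; simp only; omega
    · rw [sd_le]; simp only; omega
    · simp only; omega
  have frk : ∀ v : Vtx, inR (x + 5 * s) (x + 18 * s) y (y + 2 * s) v → v ∉ Ob := by
    rintro v ⟨h1, h2⟩ hv
    refine hO.fre v ?_ ?_ ?_ (by omega) hv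
    · rw [le_sd]; simp only; omega
    · rw [sd_le]; simp only; omega
    · simp only; omega
  set U := UU x y a s Ob EW b0 with hU
  set G : Set Edg := ↑(RE (x - s) (x + a + 3 * s) (y - a - 3 * s) (y + a + 3 * s)) with hG
  -- rectangles of the band
  have hin : ∀ A B C D : ℤ, RE A B C D ⊆ bandE (x, y) s a →
      (∀ v, inR A B C D v → (x + a ≤ v.1 ∨ y + a ≤ v.2 ∨ v.2 ≤ y - a) ∧ (y - a - s ≤ v.2 ∧
      v.2 ≤ y + a + s) ∧ (x - s ≤ v.1 ∧ v.1 ≤ x + a + s)) →
      ∀ e ∈ (↑H ∩ ↑(RE A B C D) : Set Edg), src e ∉ Ob → tgt e ∉ Ob → src e ∈ U ∨ tgt e ∈ U →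
        src e ∈ U ∧ tgt e ∈ U := by
    intro A B C D hs hv e he h1 h2 h3
    have h4 : e ∈ EW := by
      rw [hEW]
      exact ⟨⟨he.1, h1, h2⟩, Finset.mem_coe.2 (Finset.mem_union_left _ (hs (Finset.mem_coe.1 he.2)))⟩
    have h5 := inR_of_re (Finset.mem_coe.1 he.2)
    have h6 : Reach EW (src e) b0 ∧ Reach EW (tgt e) b0 := by
      rcases h3 with (h3 | h3) | (h3 | h3)
      · exact ⟨h3.1, (Adj.reach ⟨e, h4, Or.inr ⟨rfl, rfl⟩⟩).trans h3.1⟩
      · exact absurd h3.1 h1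
      · exact ⟨(Adj.reach ⟨e, h4, Or.inl ⟨rfl, rfl⟩⟩).trans h3.1, h3.1⟩
      · exact absurd h3.1 h2
    exact ⟨Or.inl ⟨h6.1, hv _ h5.1⟩, Or.inl ⟨h6.2, hv _ h5.2⟩⟩
  have sR : ∀ C D : ℤ, y - a - s ≤ C → D ≤ y + a + s →
      RE (x + a) (x + a + s) C D ⊆ bandE (x, y) s a := by
    intro C D h1 h2
    refine (RE_subset le_rfl le_rfl h1 h2).trans ?_
    exact (Finset.subset_union_left).trans Finset.subset_union_right
  have sT : RE (x - s) (x + a + s) (y + a) (y + a + s) ⊆ bandE (x, y) s a :=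
    Finset.subset_union_left
  have sB : RE (x - s) (x + a + s) (y - a - s) (y - a) ⊆ bandE (x, y) s a :=
    (Finset.subset_union_right).trans Finset.subset_union_right
  have sG : ∀ A B C D : ℤ, x - s ≤ A → B ≤ x + a + 3 * s → y - a - 3 * s ≤ C →
      D ≤ y + a + 3 * s → ∀ F : Set Edg, (F ∩ ↑(RE A B C D) : Set Edg) ⊆ G := by
    intro A B C D h1 h2 h3 h4 F e he
    exact Finset.mem_coe.2 (RE_subset h1 h2 h3 h4 (Finset.mem_coe.1 he.2))
  -- the crossings
  obtain ⟨t1, t2, ht1, ht2, ht⟩ := hB.t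
  obtain ⟨u1, u2, hu1, hu2, hu⟩ := hB.u
  obtain ⟨l1, l2, hl1, hl2, hl⟩ := hB.l
  obtain ⟨v1, v2, hv1, hv2, hv⟩ := hB.b
  simp only at ht1 ht2 ht hu1 hu2 hu hl1 hl2 hl hv1 hv2 hv
  replace ht := ht.mono (Set.inter_subset_inter_right _ (Finset.coe_subset.2 LRE_subset_RE))
  replace hv := hv.mono (Set.inter_subset_inter_right _ (Finset.coe_subset.2 LRE_subset_RE))
  replace hu := hu.mono (Set.inter_subset_inter_right _ (Finset.coe_subset.2 TBE_subset_RE))
  replace hl := hl.mono (Set.inter_subset_inter_right _ (Finset.coe_subset.2 TBE_subset_RE))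
  -- the part of `κ` in the band
  obtain ⟨k1, k2, hk1, hk2, hk3, hk4⟩ := sub_LR (a := x + a) (b := x + a + s) (c := y)
    (d := y + 2 * s) (by omega)
    (by rintro p q ⟨-, h⟩ _ _; simp only [Finset.mem_coe, mem_LRE_true] at h; omega)
    (by rintro p q ⟨-, h⟩ _ _; simp only [Finset.mem_coe, mem_LRE_false] at h; omega)
    hk (by omega) (by omega)
  have hk0 : Reach EW (x + a, k1) b0 := by
    refine (hk4.mono ?_).symm
    intro e he
    have h5 := inR_of_re (LRE_subset_RE (Finset.mem_coe.1 he.2))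
    rw [hEW]
    exact ⟨⟨he.1, frk _ h5.1, frk _ h5.2⟩, Finset.mem_coe.2 (Finset.mem_union_right _
      (LRE_subset_RE (Finset.mem_coe.1 he.2)))⟩
  have hk0U : ((x + a, k1) : Vtx) ∈ U :=
    Or.inl ⟨hk0, Or.inl le_rfl, ⟨by simp only; omega, by simp only; omega⟩,
      by simp only; omega, by simp only; omega⟩
  have hk0O : ((x + a, k1) : Vtx) ∉ Ob := fun h => by
    have := fre _ (by simp only; omega) (by simp only; omega) (by simp only; omega)
      (by simp only; omega) h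
    simp only at this
    omega
  have hkk : Reach (↑H ∩ ↑(RE (x + a) (x + a + s) y (y + 2 * s))) (x + a, k1) (x + a + s, k2) :=
    Reach.mono (fun e he => And.intro he.1.1
      (Finset.mem_coe.2 (LRE_subset_RE (Finset.mem_coe.1 he.2)))) hk3
  -- walking in the part of `κ`
  have wk : ∀ m : Vtx, Reach (↑H ∩ ↑(RE (x + a) (x + a + s) y (y + 2 * s))) (x + a, k1) m →
      m ∉ Ob ∧ m ∈ U ∧ Reach (GrV U ∩ G) (x + a, k1) m ∧ inR (x + a) (x + a + s) y (y + 2 * s) m := by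
    intro m hm
    have hr : inR (x + a) (x + a + s) y (y + 2 * s) m := reach_prop hm
      (by simp only [inR]; omega) fun e he => inR_of_re (Finset.mem_coe.1 he.2)
    have hno : ∀ v, inR (x + a) (x + a + s) y (y + 2 * s) v → v ∉ Ob := by
      rintro v ⟨h1, h2⟩ h
      have := fre v h1.1 h1.2 (by omega) (by omega) h
      omega
    rcases walk hm hk0O (hin _ _ _ _ (sR _ _ (by omega) (by omega))
      (by rintro v ⟨h1, h2⟩; omega)) hk0U
      (fun e he => ⟨fun h => absurd h (hno _ (inR_of_re (Finset.mem_coe.1 he.2)).1),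
        fun h => absurd h (hno _ (inR_of_re (Finset.mem_coe.1 he.2)).2)⟩)
      (sG _ _ _ _ (by omega) (by omega) (by omega) (by omega) _) with h | ⟨r, h1, _, _, e, he, h5⟩
    · exact ⟨h.1, h.2.1, h.2.2.2, hr⟩
    · exfalso
      have h6 := inR_of_re (Finset.mem_coe.1 he.2)
      rcases h5 with h5 | h5
      · exact hno _ (h5 ▸ h6.1) h1
      · exact hno _ (h5 ▸ h6.2) h1
  -- the top
  have top : ∃ c' : ℤ, Reach (GrV U ∩ G) (x + a, k1) (c', y + a + 3 * s) := by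
    obtain ⟨mu, p1, p2⟩ := meet (A := x + a) (B := x + a + s) (C := y) (D := y + a + s)
      (a := x + a) (b := x + a + s) (c := y) (d := y + 2 * s) le_rfl (by omega) le_rfl le_rfl
      (by omega) (by omega) hkk le_rfl le_rfl hu le_rfl (by simp only; omega)
    obtain ⟨q1, q2, q3, q4⟩ := wk mu p1
    obtain ⟨mt, r1, r2⟩ := meet (A := x - s) (B := x + a + s) (C := y) (D := y + a + s)
      (a := x + a) (b := x + a + s) (c := y + a) (d := y + a + s) (by omega) (by omega) le_rfl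
      (by omega) (by omega) le_rfl ht (by simp only; omega) le_rfl (p2.symm.trans hu)
      (by have := q4.2.2; omega) le_rfl
    have hno : ∀ v, inR (x + a) (x + a + s) y (y + a + s) v → v ∉ Ob := by
      rintro v ⟨h1, h2⟩ h
      have := fre v h1.1 h1.2 (by omega) (by omega) h
      omega
    obtain ⟨w1, w2, w3⟩ : mt ∉ Ob ∧ mt ∈ U ∧ Reach (GrV U ∩ G) mu mt := by
      rcases walk r2 q1 (hin _ _ _ _ (sR _ _ (by omega) (by omega))
        (by rintro v ⟨h1, h2⟩; omega)) q2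
        (fun e he => ⟨fun h => absurd h (hno _ (inR_of_re (Finset.mem_coe.1 he.2)).1),
          fun h => absurd h (hno _ (inR_of_re (Finset.mem_coe.1 he.2)).2)⟩)
        (sG _ _ _ _ (by omega) (by omega) (by omega) (by omega) _) with
        h | ⟨r, h1, _, _, e, he, h5⟩
      · exact ⟨h.1, h.2.1, h.2.2.2⟩
      · exfalso
        have h6 := inR_of_re (Finset.mem_coe.1 he.2)
        rcases h5 with h5 | h5
        · exact hno _ (h5 ▸ h6.1) h1
        · exact hno _ (h5 ▸ h6.2) h1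
    have hleft : ((x - s, t1) : Vtx) ∈ Ob := hO.lft _ (by simp only; omega)
    have hexT : ∀ v, inR (x - s) (x + a + s) (y + a) (y + a + s) v → v ∈ Ob → v ∈ U := by
      rintro v ⟨h1, h2⟩ h
      exact Or.inr ⟨h, by omega, by omega⟩
    rcases walk r1.symm w1 (hin _ _ _ _ sT (by rintro v ⟨h1, h2⟩; omega)) w2
        (fun e he => ⟨hexT _ (inR_of_re (Finset.mem_coe.1 he.2)).1,
          hexT _ (inR_of_re (Finset.mem_coe.1 he.2)).2⟩)
        (sG _ _ _ _ (by omega) (by omega) (by omega) (by omega) _) with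
        h | ⟨r, h1, h2, h3, e, he, h5⟩
    · exact absurd hleft h.1
    · have h6 := inR_of_re (Finset.mem_coe.1 he.2)
      have h7 : inR (x - s) (x + a + s) (y + a) (y + a + s) r := by
        rcases h5 with h5 | h5
        · exact h5 ▸ h6.1
        · exact h5 ▸ h6.2
      obtain ⟨h, z1, z2, z3⟩ := hO.top a ha r h1 h7
      simp only at z1 z2 z3
      have z4 : Reach (GrV U ∩ G) r (x - 1, h) := by
        refine z3.mono ?_
        rintro e ⟨⟨e1, e2⟩, e3, e4⟩
        refine ⟨⟨Or.inr ⟨e1, ?_, ?_⟩, Or.inr ⟨e3, ?_, ?_⟩⟩, ?_⟩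
        · simp only [Set.mem_ofPred_eq, inR] at e2; omega
        · simp only [Set.mem_ofPred_eq, inR] at e2; omega
        · simp only [Set.mem_ofPred_eq, inR] at e4; omega
        · simp only [Set.mem_ofPred_eq, inR] at e4; omega
        · refine Finset.mem_coe.2 (re_of_inR ?_ ?_)
          · simp only [Set.mem_ofPred_eq, inR] at e2 ⊢; omega
          · simp only [Set.mem_ofPred_eq, inR] at e4 ⊢; omega
      refine ⟨x - 1, q3.trans (w3.trans (h3.trans (z4.trans (vline (by omega) (by omega)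
        (by omega) (by omega) le_rfl ?_))))⟩
      intro j j1 j2
      exact Or.inr ⟨hO.lft _ (by simp only; omega), by simp only; omega, Or.inl rfl⟩
  obtain ⟨c', top⟩ := top
  -- straight down from an observed vertex below the row `0`
  have down : ∀ r : Vtx, x - s ≤ r.1 → r.1 ≤ x + a + s → r.2 < 0 → y - a - 3 * s ≤ r.2 →
      ((r.1, y - a - 3 * s) : Vtx) ∈ U ∧ Reach (GrV U ∩ G) (r.1, y - a - 3 * s) r := by
    intro r h1 h2 h3 h4
    have h5 : ∀ j, y - a - 3 * s ≤ j → j ≤ r.2 → ((r.1, j) : Vtx) ∈ U := by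
      intro j j1 j2
      exact Or.inr ⟨hO.bot _ (by simp only; omega), Or.inr (Or.inr (by simp only; omega)),
        Or.inr (Or.inl (by simp only; omega))⟩
    exact ⟨h5 _ le_rfl h4, vline (l := r.2) h4 (by omega) (by omega) le_rfl (by omega) h5⟩
  -- the bottom
  have bot : ∃ c : ℤ, ((c, y - a - 3 * s) : Vtx) ∈ U ∧
      Reach (GrV U ∩ G) (c, y - a - 3 * s) (x + a, k1) := by
    obtain ⟨ml, p1, p2⟩ := meet (A := x + a) (B := x + a + s) (C := y - a - s) (D := y + 2 * s)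
      (a := x + a) (b := x + a + s) (c := y) (d := y + 2 * s) le_rfl (by omega) le_rfl (by omega)
      (by omega) le_rfl hkk le_rfl le_rfl hl (by simp only; omega) le_rfl
    obtain ⟨q1, q2, q3, q4⟩ := wk ml p1
    have hexL : ∀ v, inR (x + a) (x + a + s) (y - a - s) (y + 2 * s) v → v ∈ Ob → v ∈ U := by
      rintro v ⟨h1, h2⟩ h
      have := fre v h1.1 h1.2 (by omega) (by omega) h
      exact Or.inr ⟨h, by omega, by omega⟩
    rcases walk p2.symm q1 (hin _ _ _ _ (sR _ _ (by omega) (by omega))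
        (by rintro v ⟨h1, h2⟩; omega)) q2
        (fun e he => ⟨hexL _ (inR_of_re (Finset.mem_coe.1 he.2)).1,
          hexL _ (inR_of_re (Finset.mem_coe.1 he.2)).2⟩)
        (sG _ _ _ _ (by omega) (by omega) (by omega) (by omega) _) with
        h | ⟨r, h1, h2, h3, e, he, h5⟩
    · -- the crossing `l` stays outside of `Ob`; it meets `b`
      have hl' : Reach ((↑H ∩ GrV Obᶜ) ∩ ↑(RE (x + a) (x + a + s) (y - a - s) (y + 2 * s)))
          ml (l1, y - a - s) :=
        Reach.mono (fun e he => And.intro (And.intro he.1.1 he.2) he.1.2) h.2.2.1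
      obtain ⟨mb, r1, r2⟩ := meet (A := x - s) (B := x + a + s) (C := y - a - s) (D := y + 2 * s)
        (a := x + a) (b := x + a + s) (c := y - a - s) (d := y - a) (by omega) (by omega) le_rfl
        le_rfl (by omega) (by omega) hv (by simp only; omega) le_rfl hl'.symm le_rfl
        (by have := q4.2.1; omega)
      have r3 := hl'.trans r2
      obtain ⟨w1, w2, w3⟩ : mb ∉ Ob ∧ mb ∈ U ∧ Reach (GrV U ∩ G) ml mb := by
        rcases walk r3 q1 (fun e he => hin _ _ _ _ (sR _ _ (by omega) (by omega))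
          (by rintro v ⟨h1, h2⟩; omega) e ⟨he.1.1, he.2⟩) q2
          (fun e he => ⟨fun h => absurd h he.1.2.1, fun h => absurd h he.1.2.2⟩)
          (sG _ _ _ _ (by omega) (by omega) (by omega) (by omega) _) with
          h | ⟨r, h1, _, _, e, he, h5⟩
        · exact ⟨h.1, h.2.1, h.2.2.2⟩
        · exfalso
          rcases h5 with h5 | h5
          · exact he.1.2.1 (h5 ▸ h1)
          · exact he.1.2.2 (h5 ▸ h1)
      have hleft : ((x - s, v1) : Vtx) ∈ Ob := hO.lft _ (by simp only; omega)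
      have hexB : ∀ v, inR (x - s) (x + a + s) (y - a - s) (y - a) v → v ∈ Ob → v ∈ U := by
        rintro v ⟨h1, h2⟩ h
        exact Or.inr ⟨h, by omega, by omega⟩
      rcases walk r1.symm w1 (hin _ _ _ _ sB (by rintro v ⟨h1, h2⟩; omega)) w2
          (fun e he => ⟨hexB _ (inR_of_re (Finset.mem_coe.1 he.2)).1,
            hexB _ (inR_of_re (Finset.mem_coe.1 he.2)).2⟩)
          (sG _ _ _ _ (by omega) (by omega) (by omega) (by omega) _) with
          h | ⟨r, h1, h2, h3, e, he, h5⟩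
      · exact absurd hleft h.1
      · have h6 := inR_of_re (Finset.mem_coe.1 he.2)
        have h7 : inR (x - s) (x + a + s) (y - a - s) (y - a) r := by
          rcases h5 with h5 | h5
          · exact h5 ▸ h6.1
          · exact h5 ▸ h6.2
        have h8 : Reach (GrV U ∩ G) r (x + a, k1) := (q3.trans (w3.trans h3)).symm
        by_cases h9 : r.2 < 0
        · obtain ⟨h10, h11⟩ := down r h7.1.1 h7.1.2 h9 (by have := h7.2.1; omega)
          exact ⟨r.1, h10, h11.trans h8⟩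
        · obtain ⟨h, z1, z2, z3⟩ := hO.low a ha r h1 h7 (by omega)
          simp only at z1 z2 z3
          have z4 : Reach (GrV U ∩ G) r (x - 1, h) := by
            refine z3.mono ?_
            rintro e ⟨⟨e1, e2⟩, e3, e4⟩
            refine ⟨⟨Or.inr ⟨e1, ?_, ?_⟩, Or.inr ⟨e3, ?_, ?_⟩⟩, ?_⟩
            · simp only [Set.mem_ofPred_eq, inR] at e2; omega
            · simp only [Set.mem_ofPred_eq, inR] at e2; omega
            · simp only [Set.mem_ofPred_eq, inR] at e4; omega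
            · simp only [Set.mem_ofPred_eq, inR] at e4; omega
            · refine Finset.mem_coe.2 (re_of_inR ?_ ?_)
              · simp only [Set.mem_ofPred_eq, inR] at e2 ⊢; omega
              · simp only [Set.mem_ofPred_eq, inR] at e4 ⊢; omega
          have h12 : ∀ j, y - a - 3 * s ≤ j → j ≤ h → ((x - 1, j) : Vtx) ∈ U := by
            intro j j1 j2
            exact Or.inr ⟨hO.lft _ (by simp only; omega), by simp only; omega, Or.inl rfl⟩
          exact ⟨x - 1, h12 _ le_rfl (by omega), (vline (by omega) (by omega) (by omega) le_rfl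
            (by omega) h12).trans (z4.symm.trans h8)⟩
    · have h6 := inR_of_re (Finset.mem_coe.1 he.2)
      have h7 : inR (x + a) (x + a + s) (y - a - s) (y + 2 * s) r := by
        rcases h5 with h5 | h5
        · exact h5 ▸ h6.1
        · exact h5 ▸ h6.2
      have h9 : r.2 < 0 := fre r h7.1.1 h7.1.2 h7.2.1 (by have := h7.2.2; omega) h1
      obtain ⟨h10, h11⟩ := down r (by have := h7.1.1; omega) h7.1.2 h9 (by have := h7.2.1; omega)
      exact ⟨r.1, h10, h11.trans (q3.trans h3).symm⟩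
  obtain ⟨c, hc, bot⟩ := bot
  exact ⟨c, c', hc, bot.trans top⟩

theorem s_t1 : S_T1 := by
  intro z g s a Ob H b0 b1 hg hgs hz hO ha hB hb0 hb1 hb0' hb1' hk A u w hA huO hu hw hr
  obtain ⟨x, y⟩ := z
  simp only at hz hb0 hb1 hb0' hb1' hk
  have haZ : (a : ℤ) = 6 * s ∨ (a : ℤ) = 16 * s := by omega
  have hgs' : 64 * (g : ℤ) ≤ s := by exact_mod_cast hgs
  have hg' : 0 < (g : ℤ) := by exact_mod_cast hg
  obtain ⟨c, c', hc, h2⟩ := barrier hg hgs hz hO ha hB hb0 hb1 hk _ rfl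
  set EW : Set Edg := ↑H ∩ GrV Obᶜ ∩ ↑(bandE (x, y) s a ∪ kapE (x, y) s) with hEW
  set U := UU x y a s Ob EW b0 with hU
  -- vertices of the path
  have hfr : ∀ v, Reach A u v → v ∉ Ob := fun v hv =>
    reach_prop (P := fun v => v ∉ Ob) hv huO fun e he => hA he
  have hpos : ∀ v : Vtx, v ∉ Ob → x ≤ v.1 ∧ 0 ≤ v.2 := by
    intro v hv
    constructor
    · by_contra h
      exact hv (hO.lft v (by simp only; omega))
    · by_contra h
      exact hv (hO.bot v (by omega))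
  obtain ⟨p', p, r1, r2, r3, r4⟩ := first_hit (P := fun v => (a : ℤ) + 3 * s ≤ sd v (x, y)) hr
    (by omega) hw
  have hup' : Reach A u p' := r1.mono Set.inter_subset_left
  have hup : Reach A u p := hup'.trans r2.reach
  have hu1 := hpos u huO
  have hp1 := hpos p (hfr p hup)
  have hp1' := hpos p' (hfr p' hup')
  have hu2 := sd_le.1 (show sd u (x, y) ≤ (a : ℤ) - 2 * s by omega)
  have hp2' := sd_le.1 (show sd p' (x, y) ≤ (a : ℤ) + 3 * s - 1 by omega)
  have hp2 := le_sd.1 r3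
  have hpp := adj_near r2
  simp only at hu2 hp2' hp2
  set V : Set Vtx := {m | (m.2 = u.2 ∧ m.1 ≤ u.1) ∨ Reach A u m ∨ (m.2 = p.2 ∧ p.1 ≤ m.1)} with hV
  have h1 : Reach (GrV V ∩ ↑(RE (x - s) (x + a + 3 * s) (y - a - 3 * s) (y + a + 3 * s)))
      (x - s, u.2) (x + a + 3 * s, p.2) := by
    have k1 : Reach (GrV V ∩ ↑(RE (x - s) (x + a + 3 * s) (y - a - 3 * s) (y + a + 3 * s)))
        (x - s, u.2) u :=
      hline (l := u.1) (by omega) le_rfl (by omega) (by omega) (by omega)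
        fun j _ j2 => Or.inl ⟨rfl, j2⟩
    have k2 : Reach (GrV V ∩ ↑(RE (x - s) (x + a + 3 * s) (y - a - 3 * s) (y + a + 3 * s)))
        u p' := by
      refine reach_sub r1 fun e he e1 e2 => ?_
      have f1 : Reach A u (src e) := e1.mono Set.inter_subset_left
      have f2 : Reach A u (tgt e) := e2.mono Set.inter_subset_left
      have f3 := hpos _ (hfr _ f1)
      have f4 := hpos _ (hfr _ f2)
      have f5 := he.2.1
      have f6 := he.2.2
      simp only [Set.mem_ofPred_eq, not_le] at f5 f6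
      have f7 := sd_le.1 f5.le
      have f8 := sd_le.1 f6.le
      simp only at f7 f8
      exact ⟨⟨Or.inr (Or.inl f1), Or.inr (Or.inl f2)⟩, Finset.mem_coe.2
        (re_of_inR (by simp only [inR]; omega) (by simp only [inR]; omega))⟩
    have k3 : Reach (GrV V ∩ ↑(RE (x - s) (x + a + 3 * s) (y - a - 3 * s) (y + a + 3 * s)))
        p' p := by
      obtain ⟨e, he, hc⟩ := r2
      have g1 : inR (x - s) (x + a + 3 * s) (y - a - 3 * s) (y + a + 3 * s) p' := by
        simp only [inR]; omega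
      have g2 : inR (x - s) (x + a + 3 * s) (y - a - 3 * s) (y + a + 3 * s) p := by
        simp only [inR]; omega
      refine Adj.reach ⟨e, ?_, hc⟩
      rcases hc with ⟨c1, c2⟩ | ⟨c1, c2⟩
      · exact ⟨⟨Or.inr (Or.inl (c1 ▸ hup')), Or.inr (Or.inl (c2 ▸ hup))⟩,
          Finset.mem_coe.2 (re_of_inR (c1 ▸ g1) (c2 ▸ g2))⟩
      · exact ⟨⟨Or.inr (Or.inl (c1 ▸ hup)), Or.inr (Or.inl (c2 ▸ hup'))⟩,
          Finset.mem_coe.2 (re_of_inR (c1 ▸ g2) (c2 ▸ g1))⟩
    have k4 : Reach (GrV V ∩ ↑(RE (x - s) (x + a + 3 * s) (y - a - 3 * s) (y + a + 3 * s)))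
        p (x + a + 3 * s, p.2) :=
      hline (k := p.1) (by omega) (by omega) le_rfl (by omega) (by omega)
        fun j j1 _ => Or.inr (Or.inr ⟨rfl, j1⟩)
    exact k1.trans (k2.trans (k3.trans k4))
  obtain ⟨m, m1, m2⟩ := meet (A := x - s) (B := x + a + 3 * s) (C := y - a - 3 * s)
    (D := y + a + 3 * s) (a := x - s) (b := x + a + 3 * s) (c := y - a - 3 * s)
    (d := y + a + 3 * s) le_rfl (by omega) le_rfl le_rfl (by omega) le_rfl h1 le_rfl le_rfl h2
    le_rfl le_rfl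
  have hmV : m ∈ V := reach_prop (P := fun v => v ∈ V) m1
    (Or.inl ⟨rfl, by simp only; omega⟩) fun e he => he.1
  have hmU : m ∈ U := reach_prop (P := fun v => v ∈ U) m2 hc fun e he => he.1
  have hfin : Reach A u m ∧ Reach EW m b0 := by
    rcases hmV with ⟨n1, n2⟩ | n1 | ⟨n1, n2⟩
    · exfalso
      rcases hmU with ⟨_, n3, n4, n5⟩ | ⟨_, n3, n4⟩
      · omega
      · omega
    · refine ⟨n1, ?_⟩
      rcases hmU with ⟨n2, _⟩ | ⟨n2, _⟩
      · exact n2
      · exact absurd n2 (hfr m n1)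
    · by_cases hpx : p.1 = x + a + 3 * s
      · exfalso
        have hmR : inR (x - s) (x + a + 3 * s) (y - a - 3 * s) (y + a + 3 * s) m :=
          reach_prop m1 (by simp only [inR]; omega) fun e he => inR_of_re (Finset.mem_coe.1 he.2)
        have hmp : m = p := Prod.ext (by have := hmR.1.2; omega) n1
        rcases hmU with ⟨_, n3, n4, n5⟩ | ⟨n6, _⟩
        · omega
        · exact hfr p hup (hmp ▸ n6)
      · exfalso
        rcases hmU with ⟨_, n3, n4, n5⟩ | ⟨_, n3, n4⟩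
        · omega
        · omega
  refine ⟨m, hfin.1, ?_⟩
  rw [hEW] at hfin
  exact hfin.2

end Pool.Agent.W2helper82.OA.P6
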